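import Pool.Agent.N833.VG.Good

/-!
# The visibility graph of a notched polygon determines the depths of the notches
-/

namespace Pool.Agent.N833.VG

open Set Vis124 Pool.Agent.TH695.BC

/-- the vertices of the notched polygon -/
noncomputable def vt (L M : ℕ) (Y : ℕ → ℝ) : Fin (L + M + 2) → ℝ × ℝ := mv (L + M + 2) L Y (Hh L M Y)

/-- the notched polygon -/
noncomputable def rg (L M : ℕ) (Y : ℕ → ℝ) : Set (ℝ × ℝ) := region L (pl Y L) (pl (Hh L M Y) L)

/-- its visibility graph -/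
noncomputable def gr (L M : ℕ) (Y : ℕ → ℝ) : SimpleGraph (Fin (L + M + 2)) :=
  visGraph (vt L M Y) (rg L M Y)

/-- the vertex is the bottom of a notch -/
def Nt (M : ℕ) (p : ℕ) : Prop := p % 2 = 1 ∧ p < M

theorem gr_adj {L M : ℕ} {Y : ℕ → ℝ} (i j : Fin (L + M + 2)) :
    (gr L M Y).Adj i j ↔ i ≠ j ∧ segment ℝ (vt L M Y i) (vt L M Y j) ⊆ rg L M Y := Iff.rfl

theorem vt_up {L M : ℕ} {Y : ℕ → ℝ} (hM' : L ≤ M + 1) (i : Fin (L + M + 2)) (hi : M < i) :
    vt L M Y i = (((L + M + 1 - (i : ℕ) : ℕ) : ℝ), Hh L M Y (L + M + 1 - i)) := by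
  unfold vt mv
  have hi' := i.isLt
  have e : L + M + 2 - 1 - (i : ℕ) = L + M + 1 - i := by omega
  split_ifs with h
  · have h1 : (i : ℕ) = L := by omega
    have h2 : L + M + 1 - (i : ℕ) = i := by omega
    rw [h2]
    unfold Hh
    rw [h2]
  · rw [e]

theorem vt_low {L M : ℕ} {Y : ℕ → ℝ} (hM : M ≤ L) (i : Fin (L + M + 2)) (hi : (i : ℕ) ≤ M) :
    vt L M Y i = (((i : ℕ) : ℝ), Y i) := by
  unfold vt mv
  rw [if_pos (by omega)]

namespace Good

variable {L M : ℕ} {w : ℕ → ℕ} {Y : ℕ → ℝ} (hg : Good L M w Y)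
include hg

theorem adj_UU {i j : Fin (L + M + 2)} (hi : M < i) (hj : M < j) (hij : i ≠ j) :
    (gr L M Y).Adj i j := by
  wlog h : j < i generalizing i j
  · have h' : i < j := lt_of_le_of_ne (not_lt.1 h) hij
    exact (this hj hi hij.symm h').symm
  have hi' := i.isLt
  have hj' := j.isLt
  have h' : (j : ℕ) < i := h
  refine ⟨hij, ?_⟩
  rw [vt_up hg.hM' i hi, vt_up hg.hM' j hj]
  exact hg.vis_UU (a := L + M + 1 - i) (b := L + M + 1 - j) (by omega) (by omega)

theorem adj_AU {i j : Fin (L + M + 2)} (hi : (i : ℕ) ≤ M) (hn : ¬ Nt M i) (hj : M < j) :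
    (gr L M Y).Adj i j := by
  have hi' := i.isLt
  have hj' := j.isLt
  have hM := hg.hM
  refine ⟨fun h => by rw [h] at hi; omega, ?_⟩
  rw [vt_low hg.hM i hi, vt_up hg.hM' j hj]
  rcases Nat.lt_trichotomy i (L + M + 1 - j) with h | h | h
  · exact hg.vis_AU_left h (by omega) hn
  · rw [← h]
    exact vseg_sub (by omega) ⟨le_rfl, hg.G_le_H (by omega)⟩ ⟨hg.G_le_H (by omega), le_rfl⟩
  · rw [segment_symm]
    exact hg.vis_AU_right h hi hn

theorem adj_NU {i j : Fin (L + M + 2)} (hn : Nt M i) (hj : M < j) :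
    (gr L M Y).Adj i j ↔
      (L + M + 1 - (j : ℕ) ≤ i + w (i / 2) ∧ (i : ℕ) ≤ L + M + 1 - j + w (i / 2)) := by
  have hi' := i.isLt
  have hj' := j.isLt
  have hM := hg.hM
  have hi : (i : ℕ) ≤ M := hn.2.le
  rw [gr_adj, vt_low hg.hM i hi, vt_up hg.hM' j hj]
  have hne : i ≠ j := fun h => by rw [h] at hi; omega
  rw [and_iff_right hne]
  rcases Nat.lt_trichotomy i (L + M + 1 - j) with h | h | h
  · rw [rg, hg.vis_NU_left h (by omega) hn]
    omega
  · rw [← h]
    have : segment ℝ (((i : ℕ) : ℝ), Y i) (((i : ℕ) : ℝ), Hh L M Y i) ⊆ rg L M Y :=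
      vseg_sub (by omega) ⟨le_rfl, hg.G_le_H (by omega)⟩ ⟨hg.G_le_H (by omega), le_rfl⟩
    exact iff_of_true this (by omega)
  · rw [segment_symm, rg, hg.vis_NU_right h hn]
    omega

theorem adj_NL {i j : Fin (L + M + 2)} (hn : Nt M i) (hj : (j : ℕ) ≤ M) :
    (gr L M Y).Adj i j ↔ ((j : ℕ) = i + 1 ∨ (j : ℕ) + 1 = i) := by
  have hi' := i.isLt
  have hj' := j.isLt
  have hM := hg.hM
  have hi : (i : ℕ) ≤ M := hn.2.le
  rw [gr_adj, vt_low hg.hM i hi, vt_low hg.hM j hj]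
  constructor
  · rintro ⟨hij, hsub⟩
    have hij' : (i : ℕ) ≠ j := fun h => hij (Fin.ext h)
    by_contra hcon
    push Not at hcon
    rcases Nat.lt_or_ge i j with h | h
    · exact hg.nvis_NL_left (by omega) hj hn hsub
    · rw [segment_symm] at hsub
      exact hg.nvis_NL_right (b := j) (by omega) hn hsub
  · intro h
    refine ⟨fun h' => by rw [h'] at h; omega, ?_⟩
    rcases h with h | h
    · rw [h]
      exact hg.vis_adj (by omega)
    · rw [← h, segment_symm]
      exact hg.vis_adj (a := j) (by omega)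

end Good

/-- the neighbours of a notch `p` with parameter `v` -/
def NS (L M v p : ℕ) : Set (Fin (L + M + 2)) :=
  {j | (((j : ℕ) = p + 1 ∨ (j : ℕ) + 1 = p) ∧ (j : ℕ) ≤ M) ∨
    (M < j ∧ L + M + 1 - (j : ℕ) ≤ p + v ∧ p ≤ L + M + 1 - j + v)}

theorem Good.nbr {L M : ℕ} {w : ℕ → ℕ} {Y : ℕ → ℝ} (hg : Good L M w Y)
    {i : Fin (L + M + 2)} (hn : Nt M i) :
    (gr L M Y).neighborSet i = NS L M (w (i / 2)) i := by
  ext j
  rw [SimpleGraph.mem_neighborSet]
  rcases Nat.lt_or_ge M j with h | h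
  · rw [hg.adj_NU hn h]
    simp only [NS, Set.mem_ofPred_eq]
    constructor
    · intro h'; exact Or.inr ⟨h, h'.1, h'.2⟩
    · rintro (h' | h')
      · omega
      · exact ⟨h'.2.1, h'.2.2⟩
  · rw [hg.adj_NL hn h]
    simp only [NS, Set.mem_ofPred_eq]
    constructor
    · intro h'; exact Or.inl ⟨h', h⟩
    · rintro (h' | h')
      · exact h'.1
      · omega

/-! ### Counting -/

theorem ncard_le {n : ℕ} (a b : ℕ) (s : Set (Fin n)) (hs : ∀ j ∈ s, a ≤ (j : ℕ) ∧ (j : ℕ) ≤ b) :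
    s.ncard ≤ b + 1 - a := by
  have h1 : (Fin.val '' s).ncard = s.ncard := Set.ncard_image_of_injective _ Fin.val_injective
  have h2 : Fin.val '' s ⊆ (Finset.Icc a b : Set ℕ) := by
    rintro _ ⟨j, hj, rfl⟩
    rw [Finset.mem_coe, Finset.mem_Icc]
    exact hs j hj
  rw [← h1]
  refine (Set.ncard_le_ncard h2 (Finset.finite_toSet _)).trans ?_
  rw [Set.ncard_coe_finset, Nat.card_Icc]

theorem le_ncard {n : ℕ} (a b : ℕ) (hb : b < n) (s : Set (Fin n))
    (hs : ∀ j : Fin n, a ≤ (j : ℕ) → (j : ℕ) ≤ b → j ∈ s) : b + 1 - a ≤ s.ncard := by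
  have h1 : (Fin.val '' s).ncard = s.ncard := Set.ncard_image_of_injective _ Fin.val_injective
  have h2 : (Finset.Icc a b : Set ℕ) ⊆ Fin.val '' s := by
    intro k hk
    rw [Finset.mem_coe, Finset.mem_Icc] at hk
    exact ⟨⟨k, by omega⟩, hs _ hk.1 hk.2, rfl⟩
  rw [← h1]
  refine le_trans ?_ (Set.ncard_le_ncard h2 (Set.toFinite _))
  rw [Set.ncard_coe_finset, Nat.card_Icc]

theorem NS_ncard_le (L M v p : ℕ) : (NS L M v p).ncard ≤ 2 * v + 3 := by
  have hsub : NS L M v p ⊆ {j : Fin (L + M + 2) | (j : ℕ) = p + 1 ∨ (j : ℕ) + 1 = p} ∪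
      {j : Fin (L + M + 2) | L + M + 1 - (p + v) ≤ (j : ℕ) ∧ (j : ℕ) ≤ L + M + 1 + v - p} := by
    intro j hj
    rcases hj with h | h
    · exact Or.inl h.1
    · right
      have hj' := j.isLt
      show L + M + 1 - (p + v) ≤ (j : ℕ) ∧ (j : ℕ) ≤ L + M + 1 + v - p
      omega
  have h1 : ({j : Fin (L + M + 2) | (j : ℕ) = p + 1 ∨ (j : ℕ) + 1 = p}).ncard ≤ 2 := by
    have hs1 : {j : Fin (L + M + 2) | (j : ℕ) = p + 1 ∨ (j : ℕ) + 1 = p} =
      {j : Fin (L + M + 2) | (j : ℕ) = p + 1} ∪ {j : Fin (L + M + 2) | (j : ℕ) + 1 = p} := by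
      ext j; rfl
    rw [hs1]
    refine (Set.ncard_union_le _ _).trans ?_
    have h2 := ncard_le (p + 1) (p + 1) {j : Fin (L + M + 2) | (j : ℕ) = p + 1} (by
      intro j hj
      have : (j : ℕ) = p + 1 := hj
      omega)
    have h3 := ncard_le (p - 1) (p - 1) {j : Fin (L + M + 2) | (j : ℕ) + 1 = p} (by
      intro j hj
      have : (j : ℕ) + 1 = p := hj
      omega)
    omega
  have h2 := ncard_le (L + M + 1 - (p + v)) (L + M + 1 + v - p)
    {j : Fin (L + M + 2) | L + M + 1 - (p + v) ≤ (j : ℕ) ∧ (j : ℕ) ≤ L + M + 1 + v - p}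
    (fun j hj => hj)
  have h3 := (Set.ncard_le_ncard hsub (Set.toFinite _)).trans (Set.ncard_union_le _ _)
  omega

theorem NS_one (L M : ℕ) : (NS L M 7 1).ncard ≤ 11 := by
  have hsub : NS L M 7 1 ⊆ {j : Fin (L + M + 2) | (j : ℕ) = 2} ∪ {j : Fin (L + M + 2) | (j : ℕ) = 0} ∪
      {j : Fin (L + M + 2) | L + M + 1 - 8 ≤ (j : ℕ) ∧ (j : ℕ) ≤ L + M + 1} := by
    intro j hj
    have hj' := j.isLt
    rcases hj with h | h
    · left
      rcases h.1 with h' | h'
      · exact Or.inl h'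
      · right
        show (j : ℕ) = 0
        omega
    · right
      show L + M + 1 - 8 ≤ (j : ℕ) ∧ (j : ℕ) ≤ L + M + 1
      omega
  have h1 := ncard_le 2 2 {j : Fin (L + M + 2) | (j : ℕ) = 2} (by
    intro j hj
    have : (j : ℕ) = 2 := hj
    omega)
  have h2 := ncard_le 0 0 {j : Fin (L + M + 2) | (j : ℕ) = 0} (by
    intro j hj
    have : (j : ℕ) = 0 := hj
    omega)
  have h3 := ncard_le (L + M + 1 - 8) (L + M + 1)
    {j : Fin (L + M + 2) | L + M + 1 - 8 ≤ (j : ℕ) ∧ (j : ℕ) ≤ L + M + 1} (fun j hj => hj)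
  have h4 := Set.ncard_le_ncard hsub (Set.toFinite _)
  have h5 := Set.ncard_union_le
    ({j : Fin (L + M + 2) | (j : ℕ) = 2} ∪ {j : Fin (L + M + 2) | (j : ℕ) = 0})
    {j : Fin (L + M + 2) | L + M + 1 - 8 ≤ (j : ℕ) ∧ (j : ℕ) ≤ L + M + 1}
  have h6 := Set.ncard_union_le
    ({j : Fin (L + M + 2) | (j : ℕ) = 2}) {j : Fin (L + M + 2) | (j : ℕ) = 0}
  omega

theorem NS_ge {L M v p : ℕ} (hL : 20 ≤ L) (hM : M ≤ L) (hn : Nt M p) (hv : 8 ≤ v)
    (hp : p ≠ 1) :
    12 ≤ (NS L M v p).ncard := by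
  obtain ⟨hp1, hp2⟩ := hn
  set c := p - 8 with hc
  -- upper positions `c, …, c + 9`
  have h1 := le_ncard (L + M + 1 - (c + 9)) (L + M + 1 - c) (by omega)
    ({j : Fin (L + M + 2) | L + M + 1 - (c + 9) ≤ (j : ℕ) ∧ (j : ℕ) ≤ L + M + 1 - c})
    (fun j h h' => ⟨h, h'⟩)
  have h2 : ({⟨p - 1, by omega⟩, ⟨p + 1, by omega⟩} : Set (Fin (L + M + 2))).ncard = 2 := by
    rw [Set.ncard_pair]
    intro h
    rw [Fin.mk.injEq] at h
    omega
  have hdisj : Disjoint ({⟨p - 1, by omega⟩, ⟨p + 1, by omega⟩} : Set (Fin (L + M + 2)))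
      {j : Fin (L + M + 2) | L + M + 1 - (c + 9) ≤ (j : ℕ) ∧ (j : ℕ) ≤ L + M + 1 - c} := by
    rw [Set.disjoint_left]
    rintro j (rfl | rfl) ⟨h3, h4⟩
    · simp only at h3 h4
      omega
    · simp only at h3 h4
      omega
  have h3 := Set.ncard_union_eq hdisj (Set.toFinite _) (Set.toFinite _)
  have hsub : ({⟨p - 1, by omega⟩, ⟨p + 1, by omega⟩} : Set (Fin (L + M + 2))) ∪
      {j : Fin (L + M + 2) | L + M + 1 - (c + 9) ≤ (j : ℕ) ∧ (j : ℕ) ≤ L + M + 1 - c} ⊆
      NS L M v p := by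
    rintro j ((rfl | rfl) | ⟨h4, h5⟩)
    · left
      refine ⟨Or.inr ?_, ?_⟩ <;> simp only <;> omega
    · left
      refine ⟨Or.inl ?_, ?_⟩ <;> simp only <;> omega
    · right
      have hj' := j.isLt
      refine ⟨?_, ?_, ?_⟩ <;> omega
  have h4 := Set.ncard_le_ncard hsub (Set.toFinite _)
  omega

theorem NS_lt {L M v v' p : ℕ} (hL : 20 ≤ L) (hM : M ≤ L) (hn : Nt M p) (hv : v < v')
    (hv' : 2 * v' ≤ L) : (NS L M v p).ncard < (NS L M v' p).ncard := by
  obtain ⟨hp1, hp2⟩ := hn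
  apply Set.ncard_lt_ncard _ (Set.toFinite _)
  refine ⟨?_, ?_⟩
  · rintro j (h | h)
    · exact Or.inl h
    · right
      refine ⟨h.1, ?_, ?_⟩ <;> omega
  · intro hsub
    by_cases h : p + v' ≤ L
    · have h1 : (⟨L + M + 1 - (p + v'), by omega⟩ : Fin (L + M + 2)) ∈ NS L M v' p := by
        right
        refine ⟨?_, ?_, ?_⟩ <;> simp only <;> omega
      rcases hsub h1 with h2 | h2 <;> simp only at h2 <;> omega
    · have h1 : (⟨L + M + 1 - (p - v'), by omega⟩ : Fin (L + M + 2)) ∈ NS L M v' p := by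
        right
        refine ⟨?_, ?_, ?_⟩ <;> simp only <;> omega
      rcases hsub h1 with h2 | h2 <;> simp only at h2 <;> omega

/-! ### Recognition of the three kinds of vertices -/

section
variable {L M : ℕ} {w w' : ℕ → ℕ} {Y Y' : ℕ → ℝ}

theorem Good.notch_iff (hg : Good L M w Y) (hW : ∀ i, 2 * w i + 3 < L) (i : Fin (L + M + 2)) :
    Nt M i ↔ ((gr L M Y).neighborSet i).ncard < L := by
  have hi' := i.isLt
  constructor
  · intro hn
    rw [hg.nbr hn]
    exact (NS_ncard_le _ _ _ _).trans_lt (hW _)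
  · intro hlt
    by_contra hn
    apply absurd hlt
    rw [not_lt]
    rcases Nat.lt_or_ge M i with h | h
    · have h1 := le_ncard (M + 1) (L + M + 1) (by omega)
        (insert i ((gr L M Y).neighborSet i)) (by
          intro j h1 h2
          by_cases hij : i = j
          · exact Or.inl hij.symm
          · exact Or.inr (hg.adj_UU h (by omega) hij))
      have h2 := Set.ncard_insert_le i ((gr L M Y).neighborSet i)
      omega
    · have h1 := le_ncard (M + 1) (L + M + 1) (by omega)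
        ((gr L M Y).neighborSet i) (by
          intro j h1 h2
          exact hg.adj_AU h hn (by omega))
      omega

theorem Good.low_iff (hg : Good L M w Y) (i : Fin (L + M + 2)) (hn : ¬ Nt M i) :
    (i : ℕ) ≤ M ↔ ({j | (gr L M Y).Adj i j ∧ Nt M j} : Set (Fin (L + M + 2))).ncard ≤ 2 := by
  have hi' := i.isLt
  have hL := hg.hL
  have hM := hg.hM
  have hM' := hg.hM'
  constructor
  · intro hi
    have hsub : ({j | (gr L M Y).Adj i j ∧ Nt M j} : Set (Fin (L + M + 2))) ⊆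
        {j : Fin (L + M + 2) | (j : ℕ) = i + 1} ∪ {j : Fin (L + M + 2) | (j : ℕ) + 1 = i} := by
      rintro j ⟨h1, h2⟩
      have h3 := (hg.adj_NL h2 hi).1 h1.symm
      rcases h3 with h3 | h3
      · right
        show (j : ℕ) + 1 = i
        omega
      · left
        show (j : ℕ) = i + 1
        omega
    have h2 := ncard_le (i + 1) (i + 1) {j : Fin (L + M + 2) | (j : ℕ) = i + 1} (by
      intro j hj
      have : (j : ℕ) = i + 1 := hj
      omega)
    have h3 := ncard_le (i - 1) (i - 1) {j : Fin (L + M + 2) | (j : ℕ) + 1 = i} (by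
      intro j hj
      have : (j : ℕ) + 1 = i := hj
      omega)
    have h4 := (Set.ncard_le_ncard hsub (Set.toFinite _)).trans (Set.ncard_union_le _ _)
    omega
  · intro hle
    by_contra hi
    apply absurd hle
    rw [not_le]
    set q := L + M + 1 - (i : ℕ) with hq
    obtain ⟨r, hr1, hr2, hr3, hr4⟩ : ∃ r, r % 2 = 1 ∧ r < M ∧ 5 ≤ r ∧
        (r ≤ q + 5 ∧ q ≤ r + 3) := by
      by_cases h1 : q < 6
      · exact ⟨5, by omega, by omega, by omega, by omega⟩
      · by_cases h2 : q < M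
        · by_cases h3 : q % 2 = 1
          · exact ⟨q, by omega, by omega, by omega, by omega⟩
          · exact ⟨q - 1, by omega, by omega, by omega, by omega⟩
        · by_cases h3 : M % 2 = 0
          · exact ⟨M - 1, by omega, by omega, by omega, by omega⟩
          · exact ⟨M - 2, by omega, by omega, by omega, by omega⟩
    have key : ∀ p : ℕ, (hp : Nt M p) → p ≤ q + 7 → q ≤ p + 7 →
        (⟨p, by have := hp.2; omega⟩ : Fin (L + M + 2)) ∈
          ({j | (gr L M Y).Adj i j ∧ Nt M j} : Set (Fin (L + M + 2))) := by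
      intro p hp h1 h2
      refine ⟨?_, hp⟩
      apply SimpleGraph.Adj.symm
      rw [hg.adj_NU (i := ⟨p, by have := hp.2; omega⟩) hp (by omega)]
      have := hg.w7 (p / 2)
      simp only
      omega
    rw [Set.two_lt_ncard_iff (Set.toFinite _)]
    refine ⟨_, _, _, key r ⟨hr1, hr2⟩ (by omega) (by omega),
      key (r - 2) ⟨by omega, by omega⟩ (by omega) (by omega),
      key (r - 4) ⟨by omega, by omega⟩ (by omega) (by omega), ?_, ?_, ?_⟩
    · intro h; rw [Fin.mk.injEq] at h; omega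
    · intro h; rw [Fin.mk.injEq] at h; omega
    · intro h; rw [Fin.mk.injEq] at h; omega

theorem iso_nbr {V : Type*} {A B : SimpleGraph V} (φ : A ≃g B) (i : V) :
    (B.neighborSet (φ i)).ncard = (A.neighborSet i).ncard := by
  have h : B.neighborSet (φ i) = φ '' (A.neighborSet i) := by
    ext j
    constructor
    · intro hj
      refine ⟨φ.symm j, ?_, by simp⟩
      rw [SimpleGraph.mem_neighborSet] at hj ⊢
      rw [← φ.map_rel_iff]
      simpa using hj
    · rintro ⟨k, hk, rfl⟩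
      exact φ.map_rel_iff.2 hk
  rw [h, Set.ncard_image_of_injective _ φ.injective]

variable (hg : Good L M w Y) (hg' : Good L M w' Y') (hW : ∀ i, 2 * w i + 3 < L)
  (hW' : ∀ i, 2 * w' i + 3 < L) (φ : gr L M Y ≃g gr L M Y')
include hg hg' hW hW'

theorem map_notch (i : Fin (L + M + 2)) : Nt M (φ i) ↔ Nt M i := by
  rw [hg.notch_iff hW i, hg'.notch_iff hW' (φ i), iso_nbr]

theorem map_low (i : Fin (L + M + 2)) (hn : ¬ Nt M i) (hi : (i : ℕ) ≤ M) : ((φ i : _) : ℕ) ≤ M := by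
  have hn' : ¬ Nt M (φ i) := by rwa [map_notch hg hg' hW hW' φ]
  rw [hg'.low_iff (φ i) hn']
  rw [hg.low_iff i hn] at hi
  refine le_trans (le_of_eq ?_) hi
  have h : ({j | (gr L M Y').Adj (φ i) j ∧ Nt M j} : Set (Fin (L + M + 2))) =
      φ '' {j | (gr L M Y).Adj i j ∧ Nt M j} := by
    ext j
    constructor
    · rintro ⟨h1, h2⟩
      refine ⟨φ.symm j, ⟨?_, ?_⟩, by simp⟩
      · rw [← φ.map_rel_iff]
        simpa using h1
      · rw [← map_notch hg hg' hW hW' φ]
        simpa using h2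
    · rintro ⟨k, ⟨h1, h2⟩, rfl⟩
      exact ⟨φ.map_rel_iff.2 h1, (map_notch hg hg' hW hW' φ k).2 h2⟩
  rw [h, Set.ncard_image_of_injective _ φ.injective]

/-- An isomorphism fixes the bottoms of the notches. -/
theorem fix_notch (h0 : w 0 = 7) (h1' : ∀ i, 1 ≤ i → 8 ≤ w' i) :
    ∀ k : ℕ, ∀ (hk : Nt M (2 * k + 1)),
      φ ⟨2 * k + 1, by have := hk.2; omega⟩ = ⟨2 * k + 1, by have := hk.2; omega⟩ := by
  intro k
  induction k using Nat.strong_induction_on with
  | _ k ih =>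
  intro hk
  have hL := hg.hL
  have hM := hg.hM
  rcases Nat.eq_zero_or_pos k with rfl | hpos
  · -- the first notch
    set i : Fin (L + M + 2) := ⟨2 * 0 + 1, by have := hk.2; omega⟩ with hi
    have hn' : Nt M (φ i) := (map_notch hg hg' hW hW' φ i).2 hk
    have hd := iso_nbr φ i
    rw [hg.nbr (i := i) hk, hg'.nbr hn'] at hd
    have e2 : (i : ℕ) = 1 := rfl
    have e1 : w ((i : ℕ) / 2) = 7 := by
      rw [e2]; exact h0
    rw [e1, e2] at hd
    by_contra hne
    have hne' : ((φ i : _) : ℕ) ≠ 1 := fun h => hne (Fin.ext h)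
    have h3 : 3 ≤ ((φ i : _) : ℕ) := by
      have := hn'.1
      omega
    have h4 := NS_ge hg.hL hg.hM hn' (h1' (((φ i : _) : ℕ) / 2) (by omega)) hne'
    have h5 := NS_one L M
    omega
  · -- the next notch
    obtain ⟨i, rfl⟩ : ∃ i, k = i + 1 := ⟨k - 1, by omega⟩
    have hk1 := hk.1
    have hk2 := hk.2
    set p : Fin (L + M + 2) := ⟨2 * i + 1, by omega⟩ with hp
    set a : Fin (L + M + 2) := ⟨2 * i + 2, by omega⟩ with ha
    set v : Fin (L + M + 2) := ⟨2 * (i + 1) + 1, by omega⟩ with hv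
    have hpn : Nt M p := ⟨by show (2 * i + 1) % 2 = 1; omega, by show 2 * i + 1 < M; omega⟩
    have hvn : Nt M v := hk
    have han : ¬ Nt M a := by
      rintro ⟨h1, -⟩
      have : (2 * i + 2) % 2 = 1 := h1
      omega
    have haM : (a : ℕ) ≤ M := by show 2 * i + 2 ≤ M; omega
    have adj1 : (gr L M Y).Adj p a := (hg.adj_NL hpn haM).2 (Or.inl rfl)
    have adj2 : (gr L M Y).Adj v a := (hg.adj_NL hvn haM).2 (Or.inr (by
      show 2 * i + 2 + 1 = 2 * (i + 1) + 1; omega))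
    have adj1' : (gr L M Y').Adj (φ p) (φ a) := φ.map_rel_iff.2 adj1
    have adj2' : (gr L M Y').Adj (φ v) (φ a) := φ.map_rel_iff.2 adj2
    have hpf : φ p = p := ih i (by omega) hpn
    have haM' := map_low hg hg' hW hW' φ a han haM
    have hvn' : Nt M (φ v) := (map_notch hg hg' hW hW' φ v).2 hvn
    rw [hpf] at adj1'
    have c1 := (hg'.adj_NL hpn haM').1 adj1'
    have c2 := (hg'.adj_NL hvn' haM').1 adj2'
    have hpv : (p : ℕ) = 2 * i + 1 := rfl
    -- exclude the other possibilities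
    have x1 : ((φ v : _) : ℕ) ≠ 2 * i + 1 := by
      intro h
      have h1 : φ v = φ p := by rw [hpf]; exact Fin.ext h
      have h2 := φ.injective h1
      rw [hv, hp, Fin.mk.injEq] at h2
      omega
    have x2 : ((φ v : _) : ℕ) + 1 ≠ 2 * i := by
      intro h
      have hi1 : 1 ≤ i := by omega
      have hq : Nt M (2 * (i - 1) + 1) := ⟨by omega, by omega⟩
      have h3 := ih (i - 1) (by omega) hq
      have h1 : φ v = φ ⟨2 * (i - 1) + 1, by omega⟩ := by
        rw [h3]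
        apply Fin.ext
        show ((φ v : _) : ℕ) = 2 * (i - 1) + 1
        omega
      have h2 := φ.injective h1
      rw [hv, Fin.mk.injEq] at h2
      omega
    apply Fin.ext
    show ((φ v : _) : ℕ) = 2 * (i + 1) + 1
    omega

include φ in
/-- **Decoding**: isomorphic visibility graphs have the same parameters. -/
theorem decode (h0 : w 0 = 7) (h1' : ∀ i, 1 ≤ i → 8 ≤ w' i) (k : ℕ) (hk : 2 * k + 1 < M) :
    w k = w' k := by
  have hn : Nt M (2 * k + 1) := ⟨by omega, hk⟩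
  have hM := hg.hM
  have hf := fix_notch hg hg' hW hW' φ h0 h1' k hn
  set p : Fin (L + M + 2) := ⟨2 * k + 1, by omega⟩ with hp
  have hd := iso_nbr φ p
  rw [hf, hg.nbr (i := p) hn, hg'.nbr (i := p) hn] at hd
  have e : (p : ℕ) / 2 = k := by show (2 * k + 1) / 2 = k; omega
  rw [e] at hd
  have hn' : Nt M (p : ℕ) := hn
  by_contra hne
  rcases Nat.lt_or_ge (w k) (w' k) with h | h
  · have := NS_lt hg.hL hg.hM hn' h (by have := hW' k; omega)
    omega
  · have := NS_lt hg.hL hg.hM hn' (show w' k < w k by omega) (by have := hW k; omega)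
    omega

end

end Pool.Agent.N833.VG
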