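import Mathlib

/-!
# Heights in general position
-/

namespace Pool.Agent.N833.VG

/-- an interval minus finitely many points -/
theorem exists_avoid (b e : ℝ) (he : 0 < e) (F : Set ℝ) (hF : F.Finite) :
    ∃ y : ℝ, |y - b| ≤ e ∧ y ∉ F := by
  have hinf : (Set.Icc (b - e) (b + e)).Infinite := Set.Icc_infinite (by linarith)
  obtain ⟨y, hy, hyF⟩ := hinf.exists_notMem_finite hF
  refine ⟨y, abs_le.2 ⟨by linarith [hy.1], by linarith [hy.2]⟩, hyF⟩

/-- no three of the points with index below `m` are collinear -/
def Gen (m : ℕ) (x y : ℕ → ℝ) : Prop :=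
  (∀ i j, i < j → j < m → y i ≠ y j) ∧
  ∀ i j k, i < j → j < k → k < m →
    (x j - x i) * (y k - y i) - (y j - y i) * (x k - x i) ≠ 0

/-- Heights near prescribed values such that no three points are collinear. -/
theorem exists_generic (x b : ℕ → ℝ) (e : ℝ) (he : 0 < e)
    (hx : ∀ i j k, i < j → j < k → ¬ (x i = x j ∧ x j = x k)) (m : ℕ) :
    ∃ y : ℕ → ℝ, (∀ i, i < m → |y i - b i| ≤ e) ∧ Gen m x y := by
  induction m with
  | zero => exact ⟨fun _ => 0, fun i hi => by omega, fun i j _ hj => by omega,
      fun i j k _ _ hk => by omega⟩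
  | succ m ih =>
    obtain ⟨y, hy, hg1, hg2⟩ := ih
    obtain ⟨c, hc, hcF⟩ := exists_avoid (b m) e he
      ((fun p : ℕ × ℕ => y p.1 + (y p.2 - y p.1) * (x m - x p.1) / (x p.2 - x p.1)) ''
        ((Finset.range m ×ˢ Finset.range m : Finset (ℕ × ℕ)) : Set (ℕ × ℕ)) ∪
        y '' (Finset.range m : Set ℕ))
      (((Finset.finite_toSet _).image _).union ((Finset.finite_toSet _).image _))
    rw [Set.mem_union, not_or] at hcF
    obtain ⟨hc1, hc2⟩ := hcF
    have hcy : ∀ i, i < m → c ≠ y i := fun i hi h =>
      hc2 ⟨i, by simpa using hi, h.symm⟩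
    refine ⟨Function.update y m c, ?_, ?_, ?_⟩
    · intro i hi
      rcases Nat.lt_or_ge i m with h | h
      · rw [Function.update_of_ne (by omega)]; exact hy i h
      · have : i = m := by omega
        subst this
        rw [Function.update_self]; exact hc
    · intro i j hij hj
      rw [Function.update_of_ne (show i ≠ m by omega)]
      rcases Nat.lt_or_ge j m with h | h
      · rw [Function.update_of_ne (by omega)]; exact hg1 i j hij h
      · have : j = m := by omega
        subst this
        rw [Function.update_self]; exact (hcy i hij).symm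
    · intro i j k hij hjk hk
      rw [Function.update_of_ne (show i ≠ m by omega), Function.update_of_ne (show j ≠ m by omega)]
      rcases Nat.lt_or_ge k m with h | h
      · rw [Function.update_of_ne (show k ≠ m by omega)]; exact hg2 i j k hij hjk h
      · have : k = m := by omega
        subst this
        rw [Function.update_self]
        by_cases hxx : x i = x j
        · have h1 : x j ≠ x k := fun h' => hx i j k hij hjk ⟨hxx, h'⟩
          rw [← hxx, sub_self, zero_mul, zero_sub, neg_ne_zero]
          refine mul_ne_zero (sub_ne_zero.2 (hg1 i j hij hjk).symm) (sub_ne_zero.2 ?_)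
          rw [hxx]; exact h1.symm
        · intro h0
          apply hc1
          have hne : x j - x i ≠ 0 := sub_ne_zero.2 (Ne.symm hxx)
          refine ⟨(i, j), ?_, ?_⟩
          · simp only [Finset.coe_product, Finset.coe_range, Set.mem_prod, Set.mem_Iio]
            omega
          · show y i + (y j - y i) * (x k - x i) / (x j - x i) = c
            field_simp
            linarith

/-- Collinear points have vanishing cross product. -/
theorem cross_of_collinear {A B C : ℝ × ℝ} (h : Collinear ℝ {A, B, C}) :
    (B.1 - A.1) * (C.2 - A.2) - (B.2 - A.2) * (C.1 - A.1) = 0 := by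
  rw [collinear_iff_of_mem (p₀ := A) (by simp)] at h
  obtain ⟨v, hv⟩ := h
  obtain ⟨r, hr⟩ := hv B (by simp)
  obtain ⟨s, hs⟩ := hv C (by simp)
  have h1 : B.1 - A.1 = r * v.1 := by rw [hr]; simp
  have h2 : B.2 - A.2 = r * v.2 := by rw [hr]; simp
  have h3 : C.1 - A.1 = s * v.1 := by rw [hs]; simp
  have h4 : C.2 - A.2 = s * v.2 := by rw [hs]; simp
  rw [h1, h2, h3, h4]; ring

end Pool.Agent.N833.VG
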