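import Pool.Agent.N833.VG.Decode
import Pool.Agent.N833.VG.Generic

/-!
# Counting visibility graphs: the lower bound
-/

namespace Pool.Agent.N833.VG

open Set Vis124 Pool.Agent.TH695.BC

/-- abscissa of the vertex with index `i` -/
noncomputable def xp (L M i : ℕ) : ℝ := if i ≤ L then (i : ℝ) else (L : ℝ) + M + 1 - i

theorem xp_ne (L M i j k : ℕ) (hij : i < j) (hjk : j < k) : ¬ (xp L M i = xp L M j ∧
    xp L M j = xp L M k) := by
  rintro ⟨h1, h2⟩
  have hij' : (i : ℝ) < j := by exact_mod_cast hij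
  have hjk' : (j : ℝ) < k := by exact_mod_cast hjk
  by_cases hj : j ≤ L
  · unfold xp at h1
    rw [if_pos (by omega), if_pos hj] at h1
    linarith
  · unfold xp at h2
    rw [if_neg hj, if_neg (by omega)] at h2
    linarith

/-- prescribed height of the vertex with index `i` -/
noncomputable def base (L M : ℕ) (w : ℕ → ℕ) (i : ℕ) : ℝ :=
  if i ≤ M then low M w i else cap L (L + M + 1 - i)

theorem good_of_close {L M : ℕ} {w : ℕ → ℕ} {Y : ℕ → ℝ} (hL : 20 ≤ L) (hM : M ≤ L)
    (hM' : L ≤ M + 1) (w7 : ∀ i, 7 ≤ w i) (wL : ∀ i, w i ≤ L)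
    (hY : ∀ i, i < L + M + 2 → |Y i - base L M w i| ≤ eps L) : Good L M w Y where
  hL := hL
  hM := hM
  hM' := hM'
  w7 := w7
  wL := wL
  lo := by
    intro k hk
    have := hY k (by omega)
    unfold base at this
    rwa [if_pos hk] at this
  up := by
    intro k hk
    have := hY (L + M + 1 - k) (by omega)
    unfold base at this
    rw [if_neg (by omega)] at this
    rwa [show L + M + 1 - (L + M + 1 - k) = k by omega] at this

theorem vt_eq {L M : ℕ} {Y : ℕ → ℝ} (i : Fin (L + M + 2)) : vt L M Y i = (xp L M i, Y i) := by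
  have hi := i.isLt
  unfold vt mv xp
  split_ifs with h
  · rfl
  · ext
    · show (((L + M + 2 - 1 - (i : ℕ) : ℕ)) : ℝ) = (L : ℝ) + M + 1 - i
      rw [show L + M + 2 - 1 - (i : ℕ) = L + M + 1 - i by omega, Nat.cast_sub (by omega)]
      push_cast
      ring
    · show Hh L M Y (L + M + 2 - 1 - i) = Y i
      unfold Hh
      congr 1
      omega

theorem generalPosition {L M : ℕ} {Y : ℕ → ℝ} (hY : Gen (L + M + 2) (xp L M) Y) :
    GeneralPosition (vt L M Y) := by
  intro i j k hij hjk hik hcol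
  have h := cross_of_collinear hcol
  rw [vt_eq, vt_eq, vt_eq] at h
  simp only at h
  have hi := i.isLt
  have hj := j.isLt
  have hk := k.isLt
  have hij' : (i : ℕ) ≠ j := fun h => hij (Fin.ext h)
  have hjk' : (j : ℕ) ≠ k := fun h => hjk (Fin.ext h)
  have hik' : (i : ℕ) ≠ k := fun h => hik (Fin.ext h)
  obtain ⟨-, hg⟩ := hY
  rcases Nat.lt_or_gt_of_ne hij' with h1 | h1 <;> rcases Nat.lt_or_gt_of_ne hjk' with h2 | h2 <;>
    rcases Nat.lt_or_gt_of_ne hik' with h3 | h3
  · exact hg i j k h1 h2 hk h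
  · omega
  · exact hg i k j h3 h2 hj (by linear_combination -h)
  · exact hg k i j h3 h1 hj (by linear_combination h)
  · exact hg j i k h1 h3 hk (by linear_combination -h)
  · exact hg j k i h2 h3 hi (by linear_combination h)
  · omega
  · exact hg k j i h2 h1 hi (by linear_combination -h)

/-- the parameters belonging to a function -/
def wOf {m K : ℕ} (f : Fin m → Fin K) (i : ℕ) : ℕ :=
  if h : 1 ≤ i ∧ i - 1 < m then 8 + (f ⟨i - 1, h.2⟩ : ℕ) else if i = 0 then 7 else 8

/-- **Lower bound.** -/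
theorem le_NGP {L M K m : ℕ} (hL : 20 ≤ L) (hM : M ≤ L) (hM' : L ≤ M + 1)
    (hK : 2 * (K + 7) + 3 < L) (hK1 : 1 ≤ K) (hm : 2 * m + 1 < M) :
    K ^ m ≤ NGP (L + M + 2) := by
  classical
  have w7 : ∀ f : Fin m → Fin K, ∀ i, 7 ≤ wOf f i := by
    intro f i
    unfold wOf
    split_ifs <;> omega
  have wK : ∀ f : Fin m → Fin K, ∀ i, wOf f i ≤ K + 7 := by
    intro f i
    unfold wOf
    split_ifs with h
    · have := (f ⟨i - 1, h.2⟩).isLt
      omega
    · omega
    · omega
  have w8 : ∀ f : Fin m → Fin K, ∀ i, 1 ≤ i → 8 ≤ wOf f i := by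
    intro f i hi
    unfold wOf
    split_ifs <;> omega
  have w0 : ∀ f : Fin m → Fin K, wOf f 0 = 7 := by
    intro f
    unfold wOf
    simp
  have hLr : (0 : ℝ) < L := by
    have : (20 : ℝ) ≤ L := by exact_mod_cast hL
    linarith
  have heps : 0 < eps L := by unfold eps; positivity
  choose Y hY hG using fun f : Fin m → Fin K =>
    exists_generic (xp L M) (base L M (wOf f)) (eps L) heps
      (fun i j k h1 h2 => xp_ne L M i j k h1 h2) (L + M + 2)
  have hgood : ∀ f, Good L M (wOf f) (Y f) := fun f =>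
    good_of_close hL hM hM' (w7 f) (fun i => (wK f i).trans (by omega)) (hY f)
  have hW : ∀ f : Fin m → Fin K, ∀ i, 2 * wOf f i + 3 < L := by
    intro f i
    have := wK f i
    omega
  set F : (Fin m → Fin K) → visClassesGP (L + M + 2) := fun f =>
    ⟨Quotient.mk (isoSetoid (L + M + 2)) (gr L M (Y f)), vt L M (Y f), rg L M (Y f),
      (hgood f).heights.isSimplePolygon, generalPosition (hG f), rfl⟩ with hF
  have hinj : Function.Injective F := by
    intro f g hfg
    have h1 : Quotient.mk (isoSetoid (L + M + 2)) (gr L M (Y f)) =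
        Quotient.mk (isoSetoid (L + M + 2)) (gr L M (Y g)) := congrArg Subtype.val hfg
    obtain ⟨φ⟩ := Quotient.exact h1
    funext i
    have h2 := decode (hgood f) (hgood g) (hW f) (hW g) φ (w0 f) (w8 g) (i + 1)
      (by have := i.isLt; omega)
    unfold wOf at h2
    have hi : 1 ≤ (i : ℕ) + 1 ∧ (i : ℕ) + 1 - 1 < m := ⟨by omega, by have := i.isLt; omega⟩
    rw [dif_pos hi, dif_pos hi] at h2
    apply Fin.ext
    have h3 : (⟨(i : ℕ) + 1 - 1, hi.2⟩ : Fin m) = i := Fin.ext (by simp)
    rw [h3] at h2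
    omega
  have hfin : Finite (Quotient (isoSetoid (L + M + 2))) := by
    have : Finite (SimpleGraph (Fin (L + M + 2))) :=
      Finite.of_injective (fun G : SimpleGraph (Fin (L + M + 2)) => G.Adj)
        (fun G H h => SimpleGraph.ext h)
    exact Quotient.finite _
  have hcard := Nat.card_le_card_of_injective F hinj
  rw [Nat.card_eq_fintype_card, Fintype.card_fun, Fintype.card_fin, Fintype.card_fin,
    Nat.card_coe_set_eq] at hcard
  exact hcard

/-- General position is a restriction. -/
theorem NGP_le_N (n : ℕ) : NGP n ≤ N n := by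
  have hfin : Finite (Quotient (isoSetoid n)) := by
    have : Finite (SimpleGraph (Fin n)) :=
      Finite.of_injective (fun G : SimpleGraph (Fin n) => G.Adj)
        (fun G H h => SimpleGraph.ext h)
    exact Quotient.finite _
  apply Set.ncard_le_ncard _ (Set.toFinite _)
  rintro q ⟨v, P, h1, -, h3⟩
  exact ⟨v, P, h1, h3⟩

end Pool.Agent.N833.VG
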