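import Pool.Agent.N833.VG.Upper
import Pool.Agent.N833.VG.Lower

/-!
# The number of visibility graphs of simple polygons is `2 ^ Θ(n log n)`
-/

namespace Pool.Agent.N833.VG

open Set Vis124

theorem logb_nonneg' {n : ℕ} (hn : 1 ≤ n) : 0 ≤ Real.logb 2 n :=
  Real.logb_nonneg (by norm_num) (by exact_mod_cast hn)

/-- the lower bound for `n ≥ 100` -/
theorem lower_bound {n : ℕ} (hn : 100 ≤ n) :
    n * Real.logb 2 n / 16 ≤ Real.logb 2 (NGP n) ∧ 1 ≤ NGP n := by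
  obtain ⟨L, M, rfl, hM, hM'⟩ : ∃ L M : ℕ, n = L + M + 2 ∧ M ≤ L ∧ L ≤ M + 1 :=
    ⟨(n - 1) / 2, n - 2 - (n - 1) / 2, by omega, by omega, by omega⟩
  set n := L + M + 2 with hndef
  set K := L / 2 - 10 with hK
  set m := (M - 2) / 2 with hm
  have h1 : K ^ m ≤ NGP n := le_NGP (by omega) hM hM' (by omega) (by omega) (by omega)
  have hK8 : n ≤ 8 * K := by omega
  have hm8 : n ≤ 8 * m := by omega
  have hK1 : 1 ≤ K := by omega
  have hNGP : 1 ≤ NGP n := le_trans (Nat.one_le_pow _ _ hK1) h1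
  refine ⟨?_, hNGP⟩
  have hnr : (100 : ℝ) ≤ n := by exact_mod_cast hn
  have hKr : (n : ℝ) / 8 ≤ K := by
    have : (n : ℝ) ≤ 8 * K := by exact_mod_cast hK8
    linarith
  have hmr : (n : ℝ) / 8 ≤ m := by
    have : (n : ℝ) ≤ 8 * m := by exact_mod_cast hm8
    linarith
  have hlog : 0 ≤ Real.logb 2 n := logb_nonneg' (by omega)
  -- `K ≥ √n`
  have h2 : Real.logb 2 n / 2 ≤ Real.logb 2 K := by
    have h3 : (n : ℝ) ≤ (K : ℝ) ^ 2 := by nlinarith
    have h4 : Real.logb 2 n ≤ Real.logb 2 ((K : ℝ) ^ 2) :=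
      Real.logb_le_logb_of_le (by norm_num) (by linarith) h3
    rw [Real.logb_pow] at h4
    push_cast at h4
    linarith
  have h5 : Real.logb 2 ((K : ℝ) ^ m) ≤ Real.logb 2 (NGP n) := by
    apply Real.logb_le_logb_of_le (by norm_num)
    · have : (0 : ℝ) < K := by linarith
      positivity
    · exact_mod_cast h1
  rw [Real.logb_pow] at h5
  have h6 : (n : ℝ) / 8 * (Real.logb 2 n / 2) ≤ m * Real.logb 2 K :=
    mul_le_mul hmr h2 (by linarith) (by linarith)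
  linarith

/-- the upper bound for `n ≥ 100` -/
theorem upper_bound {n : ℕ} (hn : 100 ≤ n) (hN : 1 ≤ N n) :
    Real.logb 2 (N n) ≤ 9 * (n * Real.logb 2 n) := by
  have hnr : (100 : ℝ) ≤ n := by exact_mod_cast hn
  have h1 : (N n : ℝ) ≤ 2 * (16 * (n : ℝ) ^ 3 + 1) ^ (2 * n) := by exact_mod_cast N_le n
  have h2 : (16 * (n : ℝ) ^ 3 + 1) ≤ (n : ℝ) ^ 4 := by
    have h3 : (1 : ℝ) ≤ (n : ℝ) ^ 3 := one_le_pow₀ (by linarith)
    have h4 : (n : ℝ) ^ 4 = n * (n : ℝ) ^ 3 := by ring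
    rw [h4]
    nlinarith
  have hn0 : (0 : ℝ) < n := by linarith
  have h3 : (N n : ℝ) ≤ 2 * ((n : ℝ) ^ 4) ^ (2 * n) := by
    refine h1.trans ?_
    gcongr
  have hN0 : (0 : ℝ) < N n := by exact_mod_cast hN
  have h4 := Real.logb_le_logb_of_le (b := 2) (by norm_num) hN0 h3
  rw [Real.logb_mul (by norm_num) (by positivity), Real.logb_self_eq_one (by norm_num),
    Real.logb_pow, Real.logb_pow] at h4
  push_cast at h4
  have h5 : (1 : ℝ) ≤ Real.logb 2 n := by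
    rw [Real.le_logb_iff_rpow_le (by norm_num) hn0]
    simp
    linarith
  have h6 : (1 : ℝ) ≤ n * Real.logb 2 n := by nlinarith
  nlinarith

/-- **The number of visibility graphs.** -/
theorem bounds {n : ℕ} (hn : 100 ≤ n) :
    n * Real.logb 2 n / 16 ≤ Real.logb 2 (NGP n) ∧
      Real.logb 2 (NGP n) ≤ Real.logb 2 (N n) ∧
      Real.logb 2 (N n) ≤ 9 * (n * Real.logb 2 n) := by
  obtain ⟨h1, h2⟩ := lower_bound hn
  have h3 := NGP_le_N n
  refine ⟨h1, ?_, upper_bound hn (h2.trans h3)⟩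
  apply Real.logb_le_logb_of_le (by norm_num)
  · exact_mod_cast h2
  · exact_mod_cast h3

end Pool.Agent.N833.VG
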