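import Pool.Agent.N833.VG.MonoVis

/-!
# Monotone polygons with notches

The upper chain is a flat cap of height about `1`; the vertices of the lower chain have height about
`0`, except that every second one is the bottom of a notch. The `i`-th notch has the depth
`2 / (2 w i - 1)`, and so its bottom sees exactly the vertices of the upper chain whose abscissa
differs by at most `w i`.
-/

namespace Pool.Agent.N833.VG

open Set Vis124 Pool.Agent.TH695.BC

/-- tolerance -/
noncomputable def eps (L : ℕ) : ℝ := (1 / (L : ℝ)) ^ 3 / 64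

/-- height of the cap -/
noncomputable def cap (L k : ℕ) : ℝ := 1 + k * (L - k) * ((1 / (L : ℝ)) ^ 3 / 16)

/-- depth of a notch -/
noncomputable def dep (w : ℕ) : ℝ := 2 / (2 * w - 1)

/-- height of the lower chain -/
noncomputable def low (M : ℕ) (w : ℕ → ℕ) (k : ℕ) : ℝ :=
  if k % 2 = 1 ∧ k < M then - dep (w (k / 2)) else 0

/-- `Y` are heights (by the index of the vertex, the lower chain from left to right and then the
upper chain from right to left) close to the prescribed ones -/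
structure Good (L M : ℕ) (w : ℕ → ℕ) (Y : ℕ → ℝ) : Prop where
  hL : 20 ≤ L
  hM : M ≤ L
  hM' : L ≤ M + 1
  w7 : ∀ i, 7 ≤ w i
  wL : ∀ i, w i ≤ L
  lo : ∀ k, k ≤ M → |Y k - low M w k| ≤ eps L
  up : ∀ k, k ≤ L → |Y (L + M + 1 - k) - cap L k| ≤ eps L

/-- the upper heights -/
def Hh (L M : ℕ) (Y : ℕ → ℝ) (k : ℕ) : ℝ := Y (L + M + 1 - k)

namespace Good

variable {L M : ℕ} {w : ℕ → ℕ} {Y : ℕ → ℝ}

section
variable (hg : Good L M w Y)
include hg

theorem x_pos : 0 < 1 / (L : ℝ) := by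
  have := hg.hL
  have : (20 : ℝ) ≤ L := by exact_mod_cast this
  positivity

theorem x_le : 1 / (L : ℝ) ≤ 1 / 20 := by
  have := hg.hL
  have : (20 : ℝ) ≤ L := by exact_mod_cast this
  exact one_div_le_one_div_of_le (by norm_num) this

theorem xL : 1 / (L : ℝ) * L = 1 := by
  have := hg.hL
  have : (20 : ℝ) ≤ L := by exact_mod_cast this
  field_simp

theorem eps_pos : 0 < eps L := by
  have := hg.x_pos
  unfold eps
  positivity

/-- `L * eps ≤ x ^ 2 / 64` -/
theorem L_eps : L * eps L = (1 / (L : ℝ)) ^ 2 / 64 := by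
  have := hg.xL
  unfold eps
  calc (L : ℝ) * ((1 / (L : ℝ)) ^ 3 / 64) = (1 / (L : ℝ) * L) * (1 / (L : ℝ)) ^ 2 / 64 := by ring
    _ = _ := by rw [this]; ring

theorem eps_le : eps L ≤ 1 / (L : ℝ) / 25600 := by
  have h1 := hg.x_pos
  have h2 := hg.x_le
  unfold eps
  have : (1 / (L : ℝ)) ^ 2 ≤ 1 / 400 := by nlinarith
  nlinarith

theorem cap_ge {k : ℕ} (hk : k ≤ L) : 1 ≤ cap L k := by
  have h1 := hg.x_pos
  have h2 : (k : ℝ) ≤ L := by exact_mod_cast hk
  have h3 : (0 : ℝ) ≤ k := Nat.cast_nonneg k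
  unfold cap
  have : 0 ≤ (k : ℝ) * (L - k) * ((1 / (L : ℝ)) ^ 3 / 16) := by
    apply mul_nonneg (mul_nonneg h3 (by linarith))
    positivity
  linarith

theorem cap_le {k : ℕ} : cap L k ≤ 1 + 1 / (L : ℝ) / 64 := by
  have h1 := hg.x_pos
  have h0 := hg.xL
  have h4 : (k : ℝ) * (L - k) ≤ L ^ 2 / 4 := by nlinarith [sq_nonneg ((L : ℝ) - 2 * k)]
  unfold cap
  have h5 : (k : ℝ) * (L - k) * ((1 / (L : ℝ)) ^ 3 / 16) ≤
      L ^ 2 / 4 * ((1 / (L : ℝ)) ^ 3 / 16) := by
    apply mul_le_mul_of_nonneg_right h4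
    positivity
  have h6 : (L : ℝ) ^ 2 / 4 * ((1 / (L : ℝ)) ^ 3 / 16) =
      (1 / (L : ℝ) * L) ^ 2 * (1 / (L : ℝ)) / 64 := by ring
  rw [h6, h0] at h5
  linarith

theorem H_ge {k : ℕ} (hk : k ≤ L) : 1 - eps L ≤ Hh L M Y k := by
  have h1 := abs_le.1 (hg.up k hk)
  have h2 := hg.cap_ge hk
  unfold Hh
  linarith [h1.1]

theorem H_le {k : ℕ} (hk : k ≤ L) : Hh L M Y k ≤ 1 + 1 / (L : ℝ) / 32 := by
  have h1 := abs_le.1 (hg.up k hk)
  have h2 := hg.cap_le (k := k)
  have h3 := hg.eps_le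
  have h4 := hg.x_pos
  unfold Hh
  linarith [h1.2]

theorem dep_facts (i : ℕ) : 0 < dep (w i) ∧ 1 / (L : ℝ) ≤ dep (w i) ∧
    ((w i : ℝ) - 1) * dep (w i) = 1 - 1 / (2 * (w i : ℝ) - 1) ∧
    (w i : ℝ) * dep (w i) = 1 + 1 / (2 * (w i : ℝ) - 1) ∧
    1 / (L : ℝ) / 2 ≤ 1 / (2 * (w i : ℝ) - 1) := by
  have h7 : (7 : ℝ) ≤ w i := by exact_mod_cast hg.w7 i
  have hL : (w i : ℝ) ≤ L := by exact_mod_cast hg.wL i
  have h0 : 0 < 2 * (w i : ℝ) - 1 := by linarith
  have hLp : (0 : ℝ) < L := by linarith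
  have h0' : 2 * (w i : ℝ) - 1 ≠ 0 := h0.ne'
  refine ⟨by unfold dep; positivity, ?_, ?_, ?_, ?_⟩
  · unfold dep
    rw [div_le_div_iff₀ hLp h0]
    linarith
  · rw [dep, ← mul_div_assoc, div_eq_iff h0', sub_mul 1, div_mul_cancel₀ _ h0']; ring
  · rw [dep, ← mul_div_assoc, div_eq_iff h0', add_mul, div_mul_cancel₀ _ h0']; ring
  · rw [div_div, div_le_div_iff₀ (by positivity) h0]
    linarith

theorem G_le {k : ℕ} (hk : k ≤ M) : Y k ≤ eps L := by
  have h1 := abs_le.1 (hg.lo k hk)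
  have h2 : low M w k ≤ 0 := by
    unfold low
    split_ifs
    · have := (hg.dep_facts (k / 2)).1
      linarith
    · exact le_rfl
  linarith [h1.2]

theorem G_ge {k : ℕ} (hk : k ≤ M) (hk' : ¬ (k % 2 = 1 ∧ k < M)) : - eps L ≤ Y k := by
  have h1 := abs_le.1 (hg.lo k hk)
  have h2 : low M w k = 0 := by
    unfold low
    rw [if_neg hk']
  linarith [h1.1]

theorem G_notch {k : ℕ} (hk : k % 2 = 1 ∧ k < M) :
    - dep (w (k / 2)) - eps L ≤ Y k ∧ Y k ≤ - dep (w (k / 2)) + eps L := by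
  have h1 := abs_le.1 (hg.lo k hk.2.le)
  have h2 : low M w k = - dep (w (k / 2)) := by
    unfold low
    rw [if_pos hk]
  rw [h2] at h1
  constructor <;> linarith [h1.1, h1.2]

omit hg in
theorem H_top (h : L = M + 1) : Y L = Hh L M Y L := by
  unfold Hh
  congr 1
  omega

theorem heights : Heights (L + M + 2) L Y (Hh L M Y) where
  hL := by have := hg.hL; omega
  lt := by
    intro k hk
    have h1 := hg.G_le (k := k) (by have := hg.hM'; omega)
    have h2 := hg.H_ge hk.le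
    have h3 := hg.eps_le
    have h4 := hg.x_le
    have h5 := hg.x_pos
    linarith
  tip := by
    rcases Nat.lt_or_ge M L with h | h
    · right
      have := hg.hM'
      exact ⟨by omega, H_top (by omega)⟩
    · left
      have hM := hg.hM
      have hML : M = L := by omega
      refine ⟨by omega, ?_⟩
      have h1 := hg.G_le (k := L) (by omega)
      have h2 := hg.H_ge (le_refl L)
      have h3 := hg.eps_le
      have h4 := hg.x_le
      have h5 := hg.x_pos
      linarith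

theorem G_le_H {k : ℕ} (hk : k ≤ L) : Y k ≤ Hh L M Y k := by
  rcases Nat.lt_or_ge k L with h | h
  · exact (hg.heights.lt k h).le
  · have : k = L := by omega
    subst this
    rcases hg.heights.tip with h | h
    · exact h.2.le
    · exact h.2.le

end

/-- parameter of an intermediate point -/
theorem param {a l b : ℕ} (h1 : a < l) (h2 : l < b) (hb : b ≤ L) (hL : 0 < L) :
    ∃ s : ℝ, s = ((l : ℝ) - a) / (b - a) ∧ 1 / (L : ℝ) ≤ s ∧ s ≤ 1 - 1 / (L : ℝ) ∧
      1 / ((b : ℝ) - a) ≤ s ∧ s ≤ 1 - 1 / ((b : ℝ) - a) ∧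
      ∀ ya yb : ℝ, ln a b ya yb l = (1 - s) * ya + s * yb := by
  have h1r : (a : ℝ) + 1 ≤ l := by exact_mod_cast h1
  have h2r : (l : ℝ) + 1 ≤ b := by exact_mod_cast h2
  have hbr : (b : ℝ) ≤ L := by exact_mod_cast hb
  have ha : (0 : ℝ) ≤ a := Nat.cast_nonneg a
  have hba : 0 < (b : ℝ) - a := by linarith
  have hLr : (0 : ℝ) < L := by exact_mod_cast hL
  have h3 : 1 / (L : ℝ) ≤ 1 / ((b : ℝ) - a) := one_div_le_one_div_of_le hba (by linarith)
  have h4 : 1 / ((b : ℝ) - a) ≤ ((l : ℝ) - a) / (b - a) := by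
    rw [div_le_div_iff_of_pos_right hba]; linarith
  have h5 : ((l : ℝ) - a) / (b - a) ≤ 1 - 1 / ((b : ℝ) - a) := by
    rw [le_sub_iff_add_le, ← add_div, div_le_one hba]; linarith
  exact ⟨_, rfl, h3.trans h4, h5.trans (by linarith), h4, h5, fun ya yb => by unfold ln; ring⟩

section
variable (hg : Good L M w Y)
include hg

/-- the upper vertices see each other -/
theorem vis_UU {a b : ℕ} (hab : a < b) (hb : b ≤ L) :
    segment ℝ ((a : ℝ), Hh L M Y a) ((b : ℝ), Hh L M Y b) ⊆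
      region L (pl Y L) (pl (Hh L M Y) L) := by
  rw [seg_sub_iff hab hb ⟨hg.G_le_H (by omega), le_rfl⟩ ⟨hg.G_le_H hb, le_rfl⟩]
  intro l hal hlb
  have hx := hg.x_pos
  have hx2 := hg.x_le
  have he := hg.eps_pos
  have he2 := hg.eps_le
  obtain ⟨s, hs, h1, h2, -, -, h3⟩ := param hal hlb hb (by have := hg.hL; omega)
  rw [h3]
  have hs0 : 0 ≤ s := by linarith
  have hs1 : 0 ≤ 1 - s := by linarith
  have hHa := hg.H_ge (k := a) (by omega)
  have hHb := hg.H_ge hb
  constructor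
  · have hG := hg.G_le (k := l) (by have := hg.hM'; omega)
    have := mul_le_mul_of_nonneg_left hHa hs1
    have := mul_le_mul_of_nonneg_left hHb hs0
    nlinarith
  · have ua := abs_le.1 (hg.up a (by omega))
    have ub := abs_le.1 (hg.up b hb)
    have ul := abs_le.1 (hg.up l (by omega))
    have hba : (b : ℝ) - a ≠ 0 := by
      have : (a : ℝ) < b := by exact_mod_cast hab
      linarith
    have hla : (1 : ℝ) ≤ l - a := by
      have : (a : ℝ) + 1 ≤ l := by exact_mod_cast hal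
      linarith
    have hbl : (1 : ℝ) ≤ b - l := by
      have : (l : ℝ) + 1 ≤ b := by exact_mod_cast hlb
      linarith
    have key : cap L l - ((1 - s) * cap L a + s * cap L b) =
        ((l : ℝ) - a) * (b - l) * (4 * eps L) := by
      rw [hs]
      unfold cap eps
      field_simp
      ring
    have hprod : 1 * 1 ≤ ((l : ℝ) - a) * (b - l) :=
      mul_le_mul hla hbl (by norm_num) (by linarith)
    have hge : 4 * eps L ≤ ((l : ℝ) - a) * (b - l) * (4 * eps L) := by nlinarith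
    unfold Hh
    have e1 : (1 - s) * Y (L + M + 1 - a) ≤ (1 - s) * (cap L a + eps L) :=
      mul_le_mul_of_nonneg_left (by linarith [ua.2]) hs1
    have e2 : s * Y (L + M + 1 - b) ≤ s * (cap L b + eps L) :=
      mul_le_mul_of_nonneg_left (by linarith [ub.2]) hs0
    nlinarith [ul.1]

/-- inequalities for a segment from a point of height about `0` to the cap -/
theorem ineq_AU {g h s : ℝ} (h1 : 1 / (L : ℝ) ≤ s) (h2 : s ≤ 1 - 1 / (L : ℝ))
    (hg1 : - eps L ≤ g) (hg2 : g ≤ eps L) (hh1 : 1 - eps L ≤ h) (hh2 : h ≤ 1 + 1 / (L : ℝ) / 32) :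
    eps L ≤ (1 - s) * g + s * h ∧ (1 - s) * g + s * h ≤ 1 - eps L := by
  have hx := hg.x_pos
  have hx2 := hg.x_le
  have he := hg.eps_pos
  have he2 := hg.eps_le
  constructor
  · have e1 : (1 - s) * (- eps L) ≤ (1 - s) * g := mul_le_mul_of_nonneg_left hg1 (by linarith)
    have e2 : s * (1 - eps L) ≤ s * h := mul_le_mul_of_nonneg_left hh1 (by linarith)
    nlinarith
  · have e1 : (1 - s) * g ≤ (1 - s) * eps L := mul_le_mul_of_nonneg_left hg2 (by linarith)
    have e2 : s * h ≤ s * (1 + 1 / (L : ℝ) / 32) := mul_le_mul_of_nonneg_left hh2 (by linarith)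
    have e3 : s * (1 + 1 / (L : ℝ) / 32) ≤ (1 - 1 / (L : ℝ)) * (1 + 1 / (L : ℝ) / 32) :=
      mul_le_mul_of_nonneg_right h2 (by linarith)
    nlinarith

/-- the vertices of the lower chain that are not in a notch see the upper vertices -/
theorem vis_AU_left {a b : ℕ} (hab : a < b) (hb : b ≤ L) (ha : ¬ (a % 2 = 1 ∧ a < M)) :
    segment ℝ ((a : ℝ), Y a) ((b : ℝ), Hh L M Y b) ⊆
      region L (pl Y L) (pl (Hh L M Y) L) := by
  have hM' := hg.hM'
  rw [seg_sub_iff hab hb ⟨le_rfl, hg.G_le_H (by omega)⟩ ⟨hg.G_le_H hb, le_rfl⟩]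
  intro l hal hlb
  obtain ⟨s, hs, h1, h2, -, -, h3⟩ := param hal hlb hb (by have := hg.hL; omega)
  rw [h3]
  have h := hg.ineq_AU h1 h2 (hg.G_ge (by omega) ha) (hg.G_le (by omega)) (hg.H_ge hb) (hg.H_le hb)
  have h4 := hg.G_le (k := l) (by omega)
  have h5 := hg.H_ge (k := l) (by omega)
  exact ⟨h4.trans h.1, h.2.trans h5⟩

theorem vis_AU_right {a b : ℕ} (hab : a < b) (hb : b ≤ M) (ha : ¬ (b % 2 = 1 ∧ b < M)) :
    segment ℝ ((a : ℝ), Hh L M Y a) ((b : ℝ), Y b) ⊆
      region L (pl Y L) (pl (Hh L M Y) L) := by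
  have hM := hg.hM
  have hM' := hg.hM'
  rw [seg_sub_iff hab (by omega) ⟨hg.G_le_H (by omega), le_rfl⟩ ⟨le_rfl, hg.G_le_H (by omega)⟩]
  intro l hal hlb
  obtain ⟨s, hs, h1, h2, -, -, h3⟩ := param hal hlb (show b ≤ L by omega)
    (by have := hg.hL; omega)
  rw [h3]
  have h := hg.ineq_AU (s := 1 - s) (by linarith) (by linarith) (hg.G_ge hb ha) (hg.G_le hb)
    (hg.H_ge (k := a) (by omega)) (hg.H_le (k := a) (by omega))
  have h4 := hg.G_le (k := l) (by omega)
  have h5 := hg.H_ge (k := l) (by omega)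
  have e : (1 - s) * Hh L M Y a + s * Y b = (1 - (1 - s)) * Y b + (1 - s) * Hh L M Y a := by ring
  rw [e]
  exact ⟨h4.trans h.1, h.2.trans h5⟩

/-- inequalities for a segment from the bottom of a notch to the cap, visible case -/
theorem ineq_NU {g h s t : ℝ} (i : ℕ) (ht1 : 1 ≤ t) (htw : t ≤ w i) (hts : 1 / t ≤ s)
    (h2 : s ≤ 1 - 1 / (L : ℝ))
    (hg1 : - dep (w i) - eps L ≤ g) (hg2 : g ≤ - dep (w i) + eps L) (hh1 : 1 - eps L ≤ h)
    (hh2 : h ≤ 1 + 1 / (L : ℝ) / 32) :
    eps L ≤ (1 - s) * g + s * h ∧ (1 - s) * g + s * h ≤ 1 - eps L := by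
  have hx := hg.x_pos
  have hx2 := hg.x_le
  have he := hg.eps_pos
  have he2 := hg.eps_le
  obtain ⟨d1, d2, d3, d4, d5⟩ := hg.dep_facts i
  have hLe := hg.L_eps
  have hwL : (w i : ℝ) ≤ L := by exact_mod_cast hg.wL i
  have hs0 : 0 ≤ s := le_trans (by positivity) hts
  constructor
  · -- monotone in `s`
    have hgh : 0 ≤ h - g := by linarith
    have e1 : (1 - 1 / t) * g + 1 / t * h ≤ (1 - s) * g + s * h := by nlinarith
    refine le_trans ?_ e1
    have ht0 : 0 < t := by linarith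
    have e2 : (1 - 1 / t) * g + 1 / t * h = ((t - 1) * g + h) / t := by field_simp
    rw [e2, le_div_iff₀ ht0]
    have e3 : (t - 1) * (- dep (w i) - eps L) ≤ (t - 1) * g :=
      mul_le_mul_of_nonneg_left hg1 (by linarith)
    have e4 : (t - 1) * (dep (w i) + eps L) ≤ ((w i : ℝ) - 1) * (dep (w i) + eps L) :=
      mul_le_mul_of_nonneg_right (by linarith) (by linarith)
    have e5 : (w i : ℝ) * eps L ≤ L * eps L := mul_le_mul_of_nonneg_right hwL he.le
    have e6 : t * eps L ≤ (w i : ℝ) * eps L := mul_le_mul_of_nonneg_right htw he.le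
    have e7 : (1 / (L : ℝ)) ^ 2 / 64 ≤ 1 / (L : ℝ) / 64 / 20 := by nlinarith
    nlinarith
  · have e1 : (1 - s) * g ≤ 0 := by
      apply mul_nonpos_of_nonneg_of_nonpos <;> linarith
    have e2 : s * h ≤ s * (1 + 1 / (L : ℝ) / 32) := mul_le_mul_of_nonneg_left hh2 hs0
    have e3 : s * (1 + 1 / (L : ℝ) / 32) ≤ (1 - 1 / (L : ℝ)) * (1 + 1 / (L : ℝ) / 32) :=
      mul_le_mul_of_nonneg_right h2 (by linarith)
    nlinarith

/-- inequality for a segment from the bottom of a notch to the cap, invisible case -/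
theorem ineq_NU' {g h t : ℝ} (i : ℕ) (htw : (w i : ℝ) + 1 ≤ t) (htL : t ≤ L)
    (hg2 : g ≤ - dep (w i) + eps L) (hh2 : h ≤ 1 + 1 / (L : ℝ) / 32) :
    (1 - 1 / t) * g + 1 / t * h < - eps L := by
  have hx := hg.x_pos
  have hx2 := hg.x_le
  have he := hg.eps_pos
  have he2 := hg.eps_le
  obtain ⟨d1, d2, d3, d4, d5⟩ := hg.dep_facts i
  have hLe := hg.L_eps
  have hw0 : (0 : ℝ) ≤ w i := Nat.cast_nonneg _
  have ht0 : 0 < t := by linarith
  have e2 : (1 - 1 / t) * g + 1 / t * h = ((t - 1) * g + h) / t := by field_simp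
  rw [e2, div_lt_iff₀ ht0]
  have e3 : (t - 1) * g ≤ (t - 1) * (- dep (w i) + eps L) :=
    mul_le_mul_of_nonneg_left hg2 (by linarith)
  have e4 : (w i : ℝ) * dep (w i) ≤ (t - 1) * dep (w i) :=
    mul_le_mul_of_nonneg_right (by linarith) d1.le
  have e5 : t * eps L ≤ L * eps L := mul_le_mul_of_nonneg_right htL he.le
  have e7 : (1 / (L : ℝ)) ^ 2 / 64 ≤ 1 / (L : ℝ) / 64 / 20 := by nlinarith
  nlinarith

/-- the bottom of a notch and the upper vertices to the right -/
theorem vis_NU_left {p b : ℕ} (hpb : p < b) (hb : b ≤ L) (hp : p % 2 = 1 ∧ p < M) :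
    segment ℝ ((p : ℝ), Y p) ((b : ℝ), Hh L M Y b) ⊆ region L (pl Y L) (pl (Hh L M Y) L) ↔
      b ≤ p + w (p / 2) := by
  have hM := hg.hM
  have hM' := hg.hM'
  have hw7 := hg.w7 (p / 2)
  rw [seg_sub_iff hpb hb ⟨le_rfl, hg.G_le_H (by omega)⟩ ⟨hg.G_le_H hb, le_rfl⟩]
  have hn := hg.G_notch hp
  constructor
  · intro hall
    by_contra hcon
    push Not at hcon
    have h := (hall (p + 1) (by omega) (by omega)).1
    obtain ⟨s, hs, -, -, -, -, h3⟩ := param (show p < p + 1 by omega) (show p + 1 < b by omega) hb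
      (by have := hg.hL; omega)
    rw [h3] at h
    have hs' : s = 1 / ((b : ℝ) - p) := by rw [hs]; push_cast; ring
    rw [hs'] at h
    have h4 := hg.G_ge (k := p + 1) (by omega) (by omega)
    have h5 := hg.ineq_NU' (g := Y p) (h := Hh L M Y b) (t := (b : ℝ) - p) (p / 2)
      (by
        have : ((p + w (p / 2) + 1 : ℕ) : ℝ) ≤ b := by exact_mod_cast hcon
        push_cast at this
        linarith)
      (by
        have : (b : ℝ) ≤ L := by exact_mod_cast hb
        have h0 : (0 : ℝ) ≤ p := Nat.cast_nonneg p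
        linarith)
      hn.2 (hg.H_le hb)
    linarith
  · intro hbw l hal hlb
    obtain ⟨s, hs, h1, h2, h1', h2', h3⟩ := param hal hlb hb (by have := hg.hL; omega)
    rw [h3]
    have h := hg.ineq_NU (g := Y p) (h := Hh L M Y b) (s := s) (t := (b : ℝ) - p) (p / 2)
      (by
        have : ((p + 1 : ℕ) : ℝ) ≤ b := by exact_mod_cast hpb
        push_cast at this
        linarith)
      (by
        have : (b : ℝ) ≤ ((p + w (p / 2) : ℕ) : ℝ) := by exact_mod_cast hbw
        push_cast at this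
        linarith)
      h1' h2 hn.1 hn.2 (hg.H_ge hb) (hg.H_le hb)
    have h4 := hg.G_le (k := l) (by omega)
    have h5 := hg.H_ge (k := l) (by omega)
    exact ⟨h4.trans h.1, h.2.trans h5⟩

/-- the bottom of a notch and the upper vertices to the left -/
theorem vis_NU_right {p b : ℕ} (hpb : b < p) (hp : p % 2 = 1 ∧ p < M) :
    segment ℝ ((b : ℝ), Hh L M Y b) ((p : ℝ), Y p) ⊆ region L (pl Y L) (pl (Hh L M Y) L) ↔
      p ≤ b + w (p / 2) := by
  have hM := hg.hM
  have hM' := hg.hM'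
  have hw7 := hg.w7 (p / 2)
  have hb : b ≤ L := by omega
  rw [seg_sub_iff hpb (by omega) ⟨hg.G_le_H hb, le_rfl⟩ ⟨le_rfl, hg.G_le_H (by omega)⟩]
  have hn := hg.G_notch hp
  constructor
  · intro hall
    by_contra hcon
    push Not at hcon
    have h := (hall (p - 1) (by omega) (by omega)).1
    obtain ⟨s, hs, -, -, -, -, h3⟩ := param (show b < p - 1 by omega) (show p - 1 < p by omega)
      (show p ≤ L by omega) (by have := hg.hL; omega)
    rw [h3] at h
    have hpb' : (b : ℝ) < p := by exact_mod_cast hpb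
    have hs' : s = 1 - 1 / ((p : ℝ) - b) := by
      rw [hs, Nat.cast_sub (by omega)]
      have : (p : ℝ) - b ≠ 0 := by linarith
      push_cast
      field_simp
      ring
    rw [hs'] at h
    have h4 := hg.G_ge (k := p - 1) (by omega) (by omega)
    have h5 := hg.ineq_NU' (g := Y p) (h := Hh L M Y b) (t := (p : ℝ) - b) (p / 2)
      (by
        have : ((b + w (p / 2) + 1 : ℕ) : ℝ) ≤ p := by exact_mod_cast hcon
        push_cast at this
        linarith)
      (by
        have : (p : ℝ) ≤ L := by exact_mod_cast (show p ≤ L by omega)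
        have h0 : (0 : ℝ) ≤ b := Nat.cast_nonneg b
        linarith)
      hn.2 (hg.H_le hb)
    linarith
  · intro hbw l hal hlb
    obtain ⟨s, hs, h1, h2, h1', h2', h3⟩ := param hal hlb (show p ≤ L by omega)
      (by have := hg.hL; omega)
    rw [h3]
    have h := hg.ineq_NU (g := Y p) (h := Hh L M Y b) (s := 1 - s) (t := (p : ℝ) - b) (p / 2)
      (by
        have : ((b + 1 : ℕ) : ℝ) ≤ p := by exact_mod_cast hpb
        push_cast at this
        linarith)
      (by
        have : (p : ℝ) ≤ ((b + w (p / 2) : ℕ) : ℝ) := by exact_mod_cast hbw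
        push_cast at this
        linarith)
      (by linarith) (by linarith) hn.1 hn.2 (hg.H_ge hb) (hg.H_le hb)
    have h4 := hg.G_le (k := l) (by omega)
    have h5 := hg.H_ge (k := l) (by omega)
    have e : (1 - s) * Hh L M Y b + s * Y p = (1 - (1 - s)) * Y p + (1 - s) * Hh L M Y b := by ring
    rw [e]
    exact ⟨h4.trans h.1, h.2.trans h5⟩

/-- the bottom of a notch sees no other vertex of the lower chain except its two neighbours -/
theorem nvis_NL_left {p b : ℕ} (hpb : p + 2 ≤ b) (hb : b ≤ M) (hp : p % 2 = 1 ∧ p < M) :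
    ¬ segment ℝ ((p : ℝ), Y p) ((b : ℝ), Y b) ⊆ region L (pl Y L) (pl (Hh L M Y) L) := by
  have hM := hg.hM
  have hM' := hg.hM'
  rw [seg_sub_iff (show p < b by omega) (by omega) ⟨le_rfl, hg.G_le_H (by omega)⟩
    ⟨le_rfl, hg.G_le_H (by omega)⟩]
  intro hall
  have hn := hg.G_notch hp
  have h := (hall (p + 1) (by omega) (by omega)).1
  obtain ⟨s, hs, h1, h2, -, -, h3⟩ := param (show p < p + 1 by omega) (show p + 1 < b by omega)
    (show b ≤ L by omega) (by have := hg.hL; omega)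
  rw [h3] at h
  have hpb' : (p : ℝ) + 2 ≤ b := by exact_mod_cast hpb
  have hs' : s ≤ 1 / 2 := by
    rw [hs]
    push_cast
    rw [div_le_div_iff₀ (by linarith) (by norm_num)]
    linarith
  have h4 := hg.G_ge (k := p + 1) (by omega) (by omega)
  have h5 := hg.G_le hb
  have hx := hg.x_pos
  have he := hg.eps_pos
  have he2 := hg.eps_le
  obtain ⟨d1, d2, -⟩ := hg.dep_facts (p / 2)
  have e1 : (1 - s) * Y p ≤ (1 - s) * (- dep (w (p / 2)) + eps L) :=
    mul_le_mul_of_nonneg_left hn.2 (by linarith)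
  have e2 : s * Y b ≤ s * eps L := mul_le_mul_of_nonneg_left h5 (by linarith)
  nlinarith

theorem nvis_NL_right {p b : ℕ} (hpb : b + 2 ≤ p) (hp : p % 2 = 1 ∧ p < M) :
    ¬ segment ℝ ((b : ℝ), Y b) ((p : ℝ), Y p) ⊆ region L (pl Y L) (pl (Hh L M Y) L) := by
  have hM := hg.hM
  have hM' := hg.hM'
  rw [seg_sub_iff (show b < p by omega) (by omega) ⟨le_rfl, hg.G_le_H (by omega)⟩
    ⟨le_rfl, hg.G_le_H (by omega)⟩]
  intro hall
  have hn := hg.G_notch hp
  have h := (hall (p - 1) (by omega) (by omega)).1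
  obtain ⟨s, hs, h1, h2, -, -, h3⟩ := param (show b < p - 1 by omega) (show p - 1 < p by omega)
    (show p ≤ L by omega) (by have := hg.hL; omega)
  rw [h3] at h
  have hpb' : (b : ℝ) + 2 ≤ p := by exact_mod_cast hpb
  have hs' : 1 / 2 ≤ s := by
    rw [hs, Nat.cast_sub (by omega), div_le_div_iff₀ (by norm_num) (by linarith)]
    push_cast
    linarith
  have h4 := hg.G_ge (k := p - 1) (by omega) (by omega)
  have h5 := hg.G_le (k := b) (by omega)
  have hx := hg.x_pos
  have he := hg.eps_pos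
  have he2 := hg.eps_le
  obtain ⟨d1, d2, -⟩ := hg.dep_facts (p / 2)
  have e1 : s * Y p ≤ s * (- dep (w (p / 2)) + eps L) :=
    mul_le_mul_of_nonneg_left hn.2 (by linarith)
  have e2 : (1 - s) * Y b ≤ (1 - s) * eps L := mul_le_mul_of_nonneg_left h5 (by linarith)
  nlinarith

/-- neighbours on the lower chain see each other -/
theorem vis_adj {a : ℕ} (ha : a < L) :
    segment ℝ ((a : ℝ), Y a) (((a + 1 : ℕ) : ℝ), Y (a + 1)) ⊆
      region L (pl Y L) (pl (Hh L M Y) L) := by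
  rw [seg_sub_iff (Nat.lt_succ_self a) ha ⟨le_rfl, hg.G_le_H (by omega)⟩
    ⟨le_rfl, hg.G_le_H ha⟩]
  intro k h1 h2
  omega

end

end Good

end Pool.Agent.N833.VG
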