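import Pool.Agent.TH695.BC.MonoPoly

/-!
# Visibility in monotone polygons with unit spaced vertices
-/

namespace Pool.Agent.N833.VG

open Set Vis124 Pool.Agent.TH695.BC

variable {L : ℕ} {G H : ℕ → ℝ}

/-- the height at abscissa `k` of the segment from `(a, ya)` to `(b, yb)` -/
noncomputable def ln (a b : ℕ) (ya yb : ℝ) (k : ℝ) : ℝ := ya + (k - a) / (b - a) * (yb - ya)

theorem ln_left (a b : ℕ) (ya yb : ℝ) : ln a b ya yb a = ya := by simp [ln]

theorem ln_right {a b : ℕ} (hab : a < b) (ya yb : ℝ) : ln a b ya yb b = yb := by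
  have : (b : ℝ) - a ≠ 0 := by
    have : (a : ℝ) < b := by exact_mod_cast hab
    linarith
  simp [ln, div_self this]

theorem ln_affine (a b : ℕ) (ya yb k x : ℝ) :
    ln a b ya yb x = (1 - (x - k)) * ln a b ya yb k + (x - k) * ln a b ya yb (k + 1) := by
  unfold ln; ring

/-- Visibility between points over two different integer abscissas. -/
theorem seg_sub_iff {a b : ℕ} (hab : a < b) (hb : b ≤ L) {ya yb : ℝ}
    (hya : G a ≤ ya ∧ ya ≤ H a) (hyb : G b ≤ yb ∧ yb ≤ H b) :
    segment ℝ ((a : ℝ), ya) ((b : ℝ), yb) ⊆ region L (pl G L) (pl H L) ↔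
      ∀ k : ℕ, a < k → k < b → G k ≤ ln a b ya yb k ∧ ln a b ya yb k ≤ H k := by
  have habr : (a : ℝ) < b := by exact_mod_cast hab
  constructor
  · intro hsub k hak hkb
    have hakr : (a : ℝ) < k := by exact_mod_cast hak
    have hkbr : (k : ℝ) < b := by exact_mod_cast hkb
    have hmem : ((k : ℝ), ln a b ya yb k) ∈ segment ℝ ((a : ℝ), ya) ((b : ℝ), yb) := by
      rw [mem_seg habr]
      exact ⟨hakr.le, hkbr.le, rfl⟩
    have h := hsub hmem
    obtain ⟨-, -, h3, h4⟩ := h
    rw [pl_nat G L k (by omega)] at h3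
    rw [pl_nat H L k (by omega)] at h4
    exact ⟨h3, h4⟩
  · intro hk p hp
    rw [mem_seg habr] at hp
    obtain ⟨h1, h2, h3⟩ := hp
    have h3' : p.2 = ln a b ya yb p.1 := h3
    obtain ⟨k, hak, hkb, hk1, hk2⟩ := exists_unit a b hab p.1 h1 h2
    have hkL : k < L := by omega
    have hends : ∀ j : ℕ, a ≤ j → j ≤ b → G j ≤ ln a b ya yb j ∧ ln a b ya yb j ≤ H j := by
      intro j haj hjb
      rcases Nat.lt_or_ge a j with h | h
      · rcases Nat.lt_or_ge j b with h' | h'
        · exact hk j h h'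
        · have : j = b := by omega
          subst this
          rw [ln_right hab]
          exact hyb
      · have : j = a := by omega
        subst this
        rw [ln_left]
        exact hya
    have e1 := hends k hak hkb.le
    have e2 := hends (k + 1) (by omega) hkb
    push_cast at e2
    have e3 := ln_affine a b ya yb k p.1
    have hb' : (b : ℝ) ≤ L := by exact_mod_cast hb
    have ha0 : (0 : ℝ) ≤ a := Nat.cast_nonneg a
    refine ⟨by linarith, by linarith, ?_, ?_⟩
    · rw [h3', pl_eq G L k hkL p.1 hk1 hk2, e3]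
      nlinarith [e1.1, e2.1]
    · rw [h3', pl_eq H L k hkL p.1 hk1 hk2, e3]
      nlinarith [e1.2, e2.2]

/-- Visibility over the same abscissa. -/
theorem vseg_sub {a : ℕ} (ha : a ≤ L) {y1 y2 : ℝ}
    (h1 : G a ≤ y1 ∧ y1 ≤ H a) (h2 : G a ≤ y2 ∧ y2 ≤ H a) :
    segment ℝ ((a : ℝ), y1) ((a : ℝ), y2) ⊆ region L (pl G L) (pl H L) := by
  wlog h : y1 ≤ y2 generalizing y1 y2
  · rw [segment_symm]
    exact this h2 h1 (by linarith)
  intro p hp
  rw [mem_vseg h] at hp
  obtain ⟨h3, h4, h5⟩ := hp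
  have ha' : (a : ℝ) ≤ L := by exact_mod_cast ha
  have ha0 : (0 : ℝ) ≤ a := Nat.cast_nonneg a
  refine ⟨by rw [h3]; exact ha0, by rw [h3]; exact ha', ?_, ?_⟩
  · rw [h3, pl_nat G L a ha]; linarith [h1.1]
  · rw [h3, pl_nat H L a ha]; linarith [h2.2]

end Pool.Agent.N833.VG
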