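import Pool.Agent.H124R2.Vis.Exit
import Pool.Agent.H247R2.Warren

/-!
# Counting visibility graphs: the upper bound

The visibility graph of a simple polygon is determined by the side of the interior and by the signs
of `2 n ^ 3` polynomials of degree two in the `2 n` coordinates of the vertices, so Warren's theorem
bounds the number of visibility graphs.
-/

namespace Pool.Agent.N833.VG

open Set Vis124 MvPolynomial

/-! ### The visibility graph is determined by signs -/

theorem pos_congr {σ a b : ℝ} (hσ : σ = 1 ∨ σ = -1) (h : SignType.sign a = SignType.sign b) :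
    0 < σ * a ↔ 0 < σ * b := by
  have h1 : 0 < a ↔ 0 < b := by rw [← sign_eq_one_iff, h, sign_eq_one_iff]
  have h2 : a < 0 ↔ b < 0 := by rw [← sign_eq_neg_one_iff, h, sign_eq_neg_one_iff]
  rcases hσ with rfl | rfl
  · simpa using h1
  · simpa using h2

theorem neg_congr' {σ a b : ℝ} (hσ : σ = 1 ∨ σ = -1) (h : SignType.sign a = SignType.sign b) :
    σ * a < 0 ↔ σ * b < 0 := by
  have h1 : 0 < a ↔ 0 < b := by rw [← sign_eq_one_iff, h, sign_eq_one_iff]
  have h2 : a < 0 ↔ b < 0 := by rw [← sign_eq_neg_one_iff, h, sign_eq_neg_one_iff]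
  rcases hσ with rfl | rfl
  · simpa using h2
  · simpa using h1

theorem zero_congr {a b : ℝ} (h : SignType.sign a = SignType.sign b) : a = 0 ↔ b = 0 := by
  rw [← sign_eq_zero_iff, h, sign_eq_zero_iff]

theorem nonpos_congr {a b : ℝ} (h : SignType.sign a = SignType.sign b) : a ≤ 0 ↔ b ≤ 0 := by
  have h1 : 0 < a ↔ 0 < b := by rw [← sign_eq_one_iff, h, sign_eq_one_iff]
  rw [← not_lt, h1, not_lt]

/-- same orientation signs and same signs of the scalar products -/
def SameSigns {n : ℕ} (v v' : Fin n → ℝ × ℝ) : Prop :=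
  ∀ i j k, SignType.sign (ori (v i) (v j) (v k)) = SignType.sign (ori (v' i) (v' j) (v' k)) ∧
    SignType.sign (dotp (v i) (v j) (v k)) = SignType.sign (dotp (v' i) (v' j) (v' k))

theorem sec_congr {n : ℕ} {v v' : Fin n → ℝ × ℝ} (hs : SameSigns v v') {σ : ℝ}
    (hσ : σ = 1 ∨ σ = -1) (j k : Fin n) :
    v j - v k ∈ Sec (-σ) (wd v k) (ud v k) ↔ v' j - v' k ∈ Sec (-σ) (wd v' k) (ud v' k) := by
  have hσ' : -σ = 1 ∨ -σ = -1 := by rcases hσ with rfl | rfl <;> norm_num
  have e1 : ∀ u : Fin n → ℝ × ℝ, cr (wd u k) (ud u k) = ori (u k) (u (sc k)) (u (pd k)) :=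
    fun u => rfl
  have e2 : ∀ u : Fin n → ℝ × ℝ, cr (wd u k) (u j - u k) = ori (u k) (u (sc k)) (u j) :=
    fun u => rfl
  have e3 : ∀ u : Fin n → ℝ × ℝ, cr (u j - u k) (ud u k) = ori (u k) (u j) (u (pd k)) :=
    fun u => rfl
  have c1 := pos_congr hσ' (hs k (sc k) (pd k)).1
  have c2 := pos_congr hσ' (hs k (sc k) j).1
  have c3 := pos_congr hσ' (hs k j (pd k)).1
  simp only [Sec, Set.mem_ofPred_eq, e1, e2, e3]
  rw [← not_lt, ← not_lt, c1, c2, c3]

theorem visible_congr {n : ℕ} {v v' : Fin n → ℝ × ℝ} {P P' : Set (ℝ × ℝ)}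
    (h : IsSimplePolygon v P) (h' : IsSimplePolygon v' P') {σ : ℝ} (hσ : σ = 1 ∨ σ = -1)
    (hint : ∀ k, Ev v (interior P) σ k) (hext : ∀ k, Ev v Pᶜ (-σ) k)
    (hext' : ∀ k, Ev v' P'ᶜ (-σ) k)
    (hs : SameSigns v v') {i j : Fin n} (hij : i ≠ j)
    (hsub : segment ℝ (v' i) (v' j) ⊆ P') : segment ℝ (v i) (v j) ⊆ P := by
  by_contra hnv
  have h1 := exit_of_not_visible h hσ hint hext hij hnv
  refine not_visible_of_exit h' hσ hext' hij ?_ hsub
  rcases h1 with ⟨k, hkj, h2, h3, h4⟩ | ⟨l, h2, h3, h4⟩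
  · left
    refine ⟨k, hkj, (zero_congr (hs i j k).1).1 h2, (nonpos_congr (hs k i j).2).1 h3,
      (sec_congr hs hσ j k).1 h4⟩
  · right
    refine ⟨l, (pos_congr hσ (hs l (sc l) i).1).1 h2, (neg_congr' hσ (hs l (sc l) j).1).1 h3, ?_⟩
    have e1 := (hs i j l).1
    have e2 := (hs i j (sc l)).1
    rw [← sign_eq_neg_one_iff, sign_mul] at h4 ⊢
    rw [← e1, ← e2]
    exact h4

theorem visGraph_congr {n : ℕ} {v v' : Fin n → ℝ × ℝ} {P P' : Set (ℝ × ℝ)}
    (h : IsSimplePolygon v P) (h' : IsSimplePolygon v' P') {σ : ℝ} (hσ : σ = 1 ∨ σ = -1)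
    (hint : ∀ k, Ev v (interior P) σ k) (hext : ∀ k, Ev v Pᶜ (-σ) k)
    (hint' : ∀ k, Ev v' (interior P') σ k) (hext' : ∀ k, Ev v' P'ᶜ (-σ) k)
    (hs : SameSigns v v') : visGraph v P = visGraph v' P' := by
  have hs' : SameSigns v' v := fun i j k => ⟨(hs i j k).1.symm, (hs i j k).2.symm⟩
  ext i j
  show (i ≠ j ∧ segment ℝ (v i) (v j) ⊆ P) ↔ (i ≠ j ∧ segment ℝ (v' i) (v' j) ⊆ P')
  constructor
  · rintro ⟨hij, hsub⟩
    exact ⟨hij, visible_congr h' h hσ hint' hext' hext hs' hij hsub⟩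
  · rintro ⟨hij, hsub⟩
    exact ⟨hij, visible_congr h h' hσ hint hext hext' hs hij hsub⟩

/-! ### The polynomials -/

/-- the index type of the polynomials -/
abbrev J (n : ℕ) : Type := (Fin n × Fin n × Fin n) × Bool

/-- difference of two coordinates, as a polynomial -/
noncomputable def dx {n : ℕ} (i j : Fin n) (b : Bool) : MvPolynomial (Fin n × Bool) ℝ :=
  X (j, b) - X (i, b)

theorem dx_deg {n : ℕ} (i j : Fin n) (b : Bool) : (dx i j b).totalDegree ≤ 1 := by
  unfold dx
  refine (totalDegree_sub _ _).trans ?_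
  simp

/-- the orientations and scalar products as polynomials in the coordinates -/
noncomputable def poly {n : ℕ} (t : J n) : MvPolynomial (Fin n × Bool) ℝ :=
  if t.2 then dx t.1.1 t.1.2.1 false * dx t.1.1 t.1.2.2 true
      - dx t.1.1 t.1.2.1 true * dx t.1.1 t.1.2.2 false
  else dx t.1.1 t.1.2.1 false * dx t.1.1 t.1.2.2 false
      + dx t.1.1 t.1.2.1 true * dx t.1.1 t.1.2.2 true

theorem mul_deg {n : ℕ} {p q : MvPolynomial (Fin n × Bool) ℝ} (hp : p.totalDegree ≤ 1)
    (hq : q.totalDegree ≤ 1) : (p * q).totalDegree ≤ 2 :=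
  (totalDegree_mul _ _).trans (by omega)

theorem poly_deg {n : ℕ} (t : J n) : (poly t).totalDegree ≤ 2 := by
  unfold poly
  split_ifs
  · refine (totalDegree_sub _ _).trans (max_le ?_ ?_) <;> exact mul_deg (dx_deg _ _ _) (dx_deg _ _ _)
  · refine (totalDegree_add _ _).trans (max_le ?_ ?_) <;> exact mul_deg (dx_deg _ _ _) (dx_deg _ _ _)

/-- the coordinates of the vertices -/
def coords {n : ℕ} (v : Fin n → ℝ × ℝ) (t : Fin n × Bool) : ℝ :=
  if t.2 then (v t.1).2 else (v t.1).1

theorem eval_poly_true {n : ℕ} (v : Fin n → ℝ × ℝ) (i j k : Fin n) :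
    eval (coords v) (poly ((i, j, k), true)) = ori (v i) (v j) (v k) := by
  simp [poly, dx, coords, ori, cr]

theorem eval_poly_false {n : ℕ} (v : Fin n → ℝ × ℝ) (i j k : Fin n) :
    eval (coords v) (poly ((i, j, k), false)) = dotp (v i) (v j) (v k) := by
  simp [poly, dx, coords, dotp]

/-- the sign vector of a polygon -/
noncomputable def signs {n : ℕ} (v : Fin n → ℝ × ℝ) (t : J n) : SignType :=
  SignType.sign (eval (coords v) (poly t))

theorem sameSigns_of_eq {n : ℕ} {v v' : Fin n → ℝ × ℝ} (h : signs v = signs v') :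
    SameSigns v v' := by
  intro i j k
  have h1 := congrFun h ((i, j, k), true)
  have h2 := congrFun h ((i, j, k), false)
  simp only [signs, eval_poly_true, eval_poly_false] at h1 h2
  exact ⟨h1, h2⟩

open Classical in
/-- the realizable sign vectors -/
noncomputable def realizable (n : ℕ) : Finset (J n → SignType) :=
  Finset.univ.filter fun s => ∃ x : Fin n × Bool → ℝ, ∀ j, SignType.sign (eval x (poly j)) = s j

theorem mem_realizable {n : ℕ} (s : J n → SignType) : s ∈ realizable n ↔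
    ∃ x : Fin n × Bool → ℝ, ∀ j, SignType.sign (eval x (poly j)) = s j := by
  simp only [realizable, Finset.mem_filter, Finset.mem_univ, true_and]

theorem realizable_card (n : ℕ) : (realizable n).card ≤ (16 * n ^ 3 + 1) ^ (2 * n) := by
  have h := H247R2.Warren.sign_count (poly (n := n)) 2 poly_deg (realizable n) (by
    intro σ hσ
    exact (mem_realizable _).1 hσ)
  refine h.trans (le_of_eq ?_)
  simp only [Fintype.card_prod, Fintype.card_fin, Fintype.card_bool]
  congr 1 <;> ring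

theorem signs_mem {n : ℕ} (v : Fin n → ℝ × ℝ) : signs v ∈ realizable n :=
  (mem_realizable _).2 ⟨coords v, fun _ => rfl⟩

instance instFiniteSG (n : ℕ) : Finite (SimpleGraph (Fin n)) := by
  classical
  exact Finite.of_injective (fun G : SimpleGraph (Fin n) => G.Adj)
    (fun G H h => SimpleGraph.ext h)

/-- **Upper bound.** -/
theorem N_le (n : ℕ) : N n ≤ 2 * (16 * n ^ 3 + 1) ^ (2 * n) := by
  classical
  -- choose data for every class
  have key : ∀ q : visClasses n, ∃ (v : Fin n → ℝ × ℝ) (P : Set (ℝ × ℝ)) (b : Bool),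
      IsSimplePolygon v P ∧ (q : Quotient (isoSetoid n)) = Quotient.mk (isoSetoid n) (visGraph v P) ∧
      (∀ k, Ev v (interior P) (if b then 1 else -1) k) ∧
      (∀ k, Ev v Pᶜ (-(if b then 1 else -1)) k) := by
    rintro ⟨q, v, P, h, rfl⟩
    obtain ⟨σ, hσ | hσ, h1, h2⟩ := oriented h
    · exact ⟨v, P, true, h, rfl, by simpa [hσ] using h1, by simpa [hσ] using h2⟩
    · exact ⟨v, P, false, h, rfl, by simpa [hσ] using h1, by simpa [hσ] using h2⟩
  choose v P b h1 h2 h3 h4 using key
  have hinj : Function.Injective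
      (fun q : visClasses n => ((b q, ⟨signs (v q), signs_mem _⟩) : Bool × realizable n)) := by
    intro q q' hq
    simp only [Prod.mk.injEq, Subtype.mk.injEq] at hq
    have hb := hq.1
    have hG := visGraph_congr (h1 q) (h1 q') (σ := if b q then 1 else -1)
      (by split_ifs <;> simp) (h3 q) (h4 q) (by rw [hb]; exact h3 q') (by rw [hb]; exact h4 q')
      (sameSigns_of_eq hq.2)
    apply Subtype.ext
    rw [h2 q, h2 q', hG]
  have hcard := Nat.card_le_card_of_injective _ hinj
  have e1 : Nat.card (Bool × realizable n) = 2 * (realizable n).card := by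
    rw [Nat.card_prod, Nat.card_eq_fintype_card (α := Bool), Fintype.card_bool,
      Nat.card_eq_fintype_card, Fintype.card_coe]
  rw [e1] at hcard
  unfold N
  rw [← Nat.card_coe_set_eq]
  exact hcard.trans (Nat.mul_le_mul_left _ (realizable_card n))

end Pool.Agent.N833.VG
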